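import Pool.Agent.V8H48.CU.Strat

/-!
# Choose can win the cut and choose game on the least inaccessible cardinal

Let `κ` be a measurable cardinal and let `l` be the least inaccessible cardinal above `κ`. The Levy
collapse `Col(ω₁, <κ)` forces that `l` is the least inaccessible cardinal and that Choose has a
winning strategy in the game `U(l, ω)`, hence also in the game `U(l, ≤ω)`.

The forcing language is the one of `Pool.Agent.Helper669.Forcing`. The conditions of the Levy
collapse are defined in `Pool.Agent.Helper669.KHuge`, the games in `Pool.Agent.W872.CC.Defs`,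
measurable cardinals in `Pool.Agent.H995R3.Defs`.

In the extension Choose looks only at the part `κ` of `l`. She fixes a normal ultrafilter `U` of the
ground model and chooses, in the ground model, functions `f n` from `κ` to the Levy collapse such
that the constant part of `f n` (modulo `U`) is in the generic filter and such that for some set
`B n ∈ U` all `α ∈ B n` for which `f n α` is in the generic filter belong to the current set.
-/

set_option autoImplicit false

namespace Pool.Agent.Results.MP_21de40_lc.ConsistentYes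

open Cardinal Pool.Agent.Helper669.Forcing Pool.Agent.Helper669.K Pool.Agent.H995R3
open Pool.Agent.W872.CC Pool.Agent.V8H48.CU

section defs

variable (P : Type) [Preorder P]

/-- In the extension, `ν` is greater than `2 ^ μ` for all cardinals `μ < ν` of the ground model:
there is no one-to-one function from `ν` to the set of the subsets of `μ`. (Every cardinal of the
extension is a cardinal of the ground model.) -/
def StaysStrongLimit (ν : Cardinal.{0}) : Set P :=
  fall fun μ : Cardinal.{0} => fall fun _ : μ < ν => fall fun F : ν.out → μ.out → Set P =>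
    fex fun x : ν.out => fex fun y : ν.out => fand (fground (x ≠ y))
      (fall fun z : μ.out => fiff (meets (F x z)) (meets (F y z)))

/-- `ν` is an inaccessible cardinal in the extension. -/
def Inaccessible (ν : Cardinal.{0}) : Set P :=
  fand (fground (ℵ₀ < ν)) (fand (StaysRegular P ν) (StaysStrongLimit P ν))

/-- `ν` is the least inaccessible cardinal in the extension. -/
def LeastInaccessible (ν : Cardinal.{0}) : Set P :=
  fand (Inaccessible P ν)
    (fall fun μ : Cardinal.{0} => fall fun _ : μ < ν => fnot (Inaccessible P μ))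

end defs

section small

variable {P : Type} [Preorder P]

theorem inaccessible_of_small {l : Cardinal.{0}} (hl : l.IsInaccessible) (hP : #P < l) (p : P) :
    p ∈ Inaccessible P l := by
  refine ⟨hl.aleph0_lt, ?_, ?_⟩
  · refine staysRegular_of_cc' hl.isRegular (fun ι f hι => ?_) p
    have h1 : ¬ Function.Injective f := fun h => absurd (mk_le_of_injective h)
      (not_le.2 (hP.trans_le hι))
    unfold Function.Injective at h1
    push Not at h1
    obtain ⟨i, j, h2, h3⟩ := h1
    exact ⟨i, j, h3, f i, le_rfl, h2.le⟩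
  · intro μ hμ F
    have h1 : #(μ.out → Set P) < l := by
      rw [← power_def, mk_set, mk_out, ← power_mul]
      exact hl.isStrongPrelimit (mul_lt_of_lt hl.aleph0_lt.le hP hμ)
    have h2 : ¬ Function.Injective (fun (x : l.out) (z : μ.out) => meets (F x z)) := by
      intro h
      have := mk_le_of_injective h
      rw [mk_out] at this
      exact absurd h1 (not_lt.2 this)
    unfold Function.Injective at h2
    push Not at h2
    obtain ⟨x, y, h3, h4⟩ := h2
    refine mem_fex.2 fun q _ => ⟨q, le_rfl, x, mem_fex.2 fun r _ => ⟨r, le_rfl, y, h4, fun z => ?_⟩⟩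
    have h5 : meets (F x z) = meets (F y z) := congrFun h3 z
    show r ∈ fiff (meets (F x z)) (meets (F y z))
    rw [h5]
    refine ⟨?_, ?_⟩ <;>
    · rw [mem_fimp]
      exact fun t _ h => ⟨t, le_rfl, h⟩

theorem not_inaccessible_of {ν : Cardinal.{0}} (hν : ¬ ν.IsInaccessible) (p : P) :
    p ∈ fnot (Inaccessible P ν) := by
  rintro q - ⟨h0, h1, h2⟩
  have h0' : ℵ₀ < ν := h0
  apply hν
  refine ⟨h0', ?_, ?_⟩
  · by_contra hcon
    rw [not_le] at hcon
    obtain ⟨T, hT, hT'⟩ := Order.exists_cof_eq (α := ν.ord.ToType)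
    rw [Ordinal.cof_toType] at hT'
    obtain ⟨e⟩ : Nonempty ((#T).out ≃ T) := by
      rw [← Cardinal.eq]
      simp
    have h3 := h1 (#T) (by rw [hT']; exact hcon) (fun x y => {_p | y = (e x).1})
    have hf : q ∈ IsFun (P := P) (fun (x : (#T).out) (y : ν.ord.ToType) => {_p | y = (e x).1}) := by
      refine ⟨fun x => mem_fex.2 fun r _ => ⟨r, le_rfl, (e x).1, meets_of_mem rfl⟩,
        fun x y y' => ?_⟩
      rw [mem_fimp]
      rintro r - ⟨k1, k2⟩
      obtain ⟨_, _, _, k3, _⟩ := k1 r le_rfl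
      obtain ⟨_, _, _, k4, _⟩ := k2 r le_rfl
      exact ⟨r, le_rfl, (show y = _ from k3).trans (show y' = _ from k4).symm⟩
    rw [mem_fimp] at h3
    obtain ⟨r, hr, h4⟩ := h3 q le_rfl hf
    obtain ⟨r', hr', b, h5⟩ := mem_fex.1 h4 r le_rfl
    obtain ⟨t, ht, hbt⟩ := hT b
    have h6 := h5 (e.symm ⟨t, ht⟩) t
    rw [mem_fimp] at h6
    obtain ⟨_, _, h7⟩ := h6 r' le_rfl (meets_of_mem (by simp))
    exact absurd h7 (not_lt.2 hbt)
  · intro μ hμ
    by_contra hcon
    rw [not_lt, ← mk_out ν] at hcon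
    nth_rewrite 1 [← mk_out μ] at hcon
    rw [← mk_set] at hcon
    obtain ⟨j⟩ := hcon
    have h3 := h2 μ hμ (fun x z => {_p | z ∈ j x})
    obtain ⟨r, _, x, h4⟩ := mem_fex.1 h3 q le_rfl
    obtain ⟨r', _, y, h5, h6⟩ := mem_fex.1 h4 r le_rfl
    have key : ∀ x y : ν.out, (∀ z : μ.out, r' ∈ fimp (meets {_p : P | z ∈ j x})
        (meets {_p : P | z ∈ j y})) → j x ⊆ j y := by
      intro x y h z hz
      obtain ⟨t, _, h7⟩ := mem_fimp.1 (h z) r' le_rfl (meets_of_mem hz)
      obtain ⟨_, _, _, h8, _⟩ := h7 t le_rfl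
      exact h8
    exact h5 (j.injective ((key x y fun z => (h6 z).1).antisymm (key y x fun z => (h6 z).2)))

end small

/-- Add two new values to a condition. -/
theorem exists_ext {κ : Cardinal.{0}} (q : LC (ℵ₁ : Cardinal.{0}).ord.ToType κ.ord.ToType)
    {β β' c c' : κ.ord.ToType} (hc : c < β) (hc' : c' < β') (hne : β ≠ β')
    {ξ : (ℵ₁ : Cardinal.{0}).ord.ToType} (hξ : ∀ β γ, (β, ξ, γ) ∉ q.g) :
    ∃ r ≤ q, (β, ξ, c) ∈ r.g ∧ (β', ξ, c') ∈ r.g := by
  refine ⟨⟨insert (β, ξ, c) (insert (β', ξ, c') q.g), (q.cnt.insert _).insert _, ?_, ?_⟩,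
    fun t ht => Set.mem_insert_of_mem _ (Set.mem_insert_of_mem _ ht), Set.mem_insert _ _,
    Set.mem_insert_of_mem _ (Set.mem_insert _ _)⟩
  · intro b x d d' h h'
    rcases h with h | h | h <;> rcases h' with h' | h' | h'
    · simp only [Prod.mk.injEq] at h h'
      rw [h.2.2, h'.2.2]
    · simp only [Prod.mk.injEq] at h h'
      exact absurd (h.1.symm.trans h'.1) hne
    · simp only [Prod.mk.injEq] at h
      rw [h.2.1] at h'
      exact absurd h' (hξ _ _)
    · simp only [Prod.mk.injEq] at h h'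
      exact absurd (h'.1.symm.trans h.1) hne
    · simp only [Prod.mk.injEq] at h h'
      rw [h.2.2, h'.2.2]
    · simp only [Prod.mk.injEq] at h
      rw [h.2.1] at h'
      exact absurd h' (hξ _ _)
    · simp only [Prod.mk.injEq] at h'
      rw [h'.2.1] at h
      exact absurd h (hξ _ _)
    · simp only [Prod.mk.injEq] at h'
      rw [h'.2.1] at h
      exact absurd h (hξ _ _)
    · exact q.fn b x d d' h h'
  · intro b x d h
    rcases h with h | h | h
    · simp only [Prod.mk.injEq] at h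
      rw [h.1, h.2.2]
      exact hc
    · simp only [Prod.mk.injEq] at h
      rw [h.1, h.2.2]
      exact hc'
    · exact q.val b x d h

theorem not_inaccessible_le {κ ν : Cardinal.{0}} (h1 : ℵ₁ < ν) (h2 : ν ≤ κ) (hκ : ℵ₀ < κ)
    (p : LC (ℵ₁ : Cardinal.{0}).ord.ToType κ.ord.ToType) :
    p ∈ fnot (Inaccessible (LC (ℵ₁ : Cardinal.{0}).ord.ToType κ.ord.ToType) ν) := by
  rintro q - ⟨-, -, h3⟩
  have : Infinite κ.ord.ToType := by
    rw [Cardinal.infinite_iff, mk_ord_toType]
    exact hκ.le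
  obtain ⟨c0, c1, h01⟩ : ∃ c0 c1 : κ.ord.ToType, c0 < c1 := by
    obtain ⟨a, b, hab⟩ := exists_pair_ne κ.ord.ToType
    rcases lt_or_gt_of_ne hab with h | h
    · exact ⟨a, b, h⟩
    · exact ⟨b, a, h⟩
  have hcard : ν ≤ #((Set.Iic c1)ᶜ : Set κ.ord.ToType) := by
    rw [Cardinal.mk_compl_of_infinite, mk_ord_toType]
    · exact h2
    · have h4 : Set.Iic c1 = insert c1 (Set.Iio c1) := by
        ext y
        simp [le_iff_eq_or_lt]
      rw [h4]
      refine (mk_insert_le).trans_lt ?_
      have h5 : #(Set.Iio c1) < #κ.ord.ToType := mk_Iio_lt c1 (by simp)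
      refine add_lt_of_lt ?_ h5 ?_
      · rw [mk_ord_toType]
        exact hκ.le
      · rw [mk_ord_toType]
        exact one_lt_aleph0.trans hκ
  rw [← mk_out ν] at hcard
  obtain ⟨i⟩ := hcard
  obtain ⟨e⟩ : Nonempty ((ℵ₁ : Cardinal.{0}).out ≃ (ℵ₁ : Cardinal.{0}).ord.ToType) := by
    rw [← Cardinal.eq, mk_out, mk_ord_toType]
  have h4 := h3 ℵ₁ h1 (fun x z => {p | ((i x).1, e z, c0) ∈ p.g})
  obtain ⟨r, hr, x, h5⟩ := mem_fex.1 h4 q le_rfl
  obtain ⟨r', hr', y, h6, h7⟩ := mem_fex.1 h5 r le_rfl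
  obtain ⟨ξ, hξ⟩ := LC.collapsed_aux_fresh r'
  have hne : (i x).1 ≠ (i y).1 := fun h => h6 (i.injective (Subtype.ext h))
  have hx : c1 < (i x).1 := not_le.1 (i x).2
  have hy : c1 < (i y).1 := not_le.1 (i y).2
  obtain ⟨t, ht, h8, h9⟩ := exists_ext r' (h01.trans hx) hy hne hξ
  have h10 := (h7 (e.symm ξ)).1
  rw [mem_fimp] at h10
  obtain ⟨u, hu, h11⟩ := h10 t ht (meets_of_mem (by
    show ((i x).1, e (e.symm ξ), c0) ∈ t.g
    rw [Equiv.apply_symm_apply]
    exact h8))
  obtain ⟨v, hv, s, hs, hvs⟩ := h11 u le_rfl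
  have h12 : ((i y).1, ξ, c0) ∈ v.g := by
    have h13 : ((i y).1, e (e.symm ξ), c0) ∈ s.g := hs
    rw [Equiv.apply_symm_apply] at h13
    exact hvs h13
  exact h01.ne (v.fn _ _ _ _ h12 ((hv.trans hu) h9))

theorem mk_LC_lt {κ l : Cardinal.{0}} (hκ : ℵ₁ < κ) (hκl : κ < l) (hl : l.IsInaccessible) :
    #(LC (ℵ₁ : Cardinal.{0}).ord.ToType κ.ord.ToType) < l := by
  have h1 : Function.Injective (fun p : LC (ℵ₁ : Cardinal.{0}).ord.ToType κ.ord.ToType => p.g) := by
    intro p q h
    cases p
    cases q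
    simp only at h
    subst h
    rfl
  refine (mk_le_of_injective h1).trans_lt ?_
  rw [mk_set]
  refine hl.isStrongPrelimit ?_
  rw [mk_prod, mk_prod]
  simp only [mk_ord_toType, lift_id]
  exact mul_lt_of_lt hl.aleph0_lt.le hκl
    (mul_lt_of_lt hl.aleph0_lt.le (hκ.trans hκl) hκl)

/-- If `κ` is measurable and `l` is the least inaccessible cardinal above `κ`, then the Levy
collapse `Col(ω₁, <κ)` forces that `l` is the least inaccessible cardinal and that Choose has a
winning strategy in `U(l, ≤ω)`, and even in `U(l, ω)`. -/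
theorem result (κ l : Cardinal.{0}) (hκ : IsMeasurable κ) (hκl : κ < l) (hl : l.IsInaccessible)
    (hleast : ∀ ν, κ < ν → ν < l → ¬ ν.IsInaccessible)
    (p : LC (ℵ₁ : Cardinal.{0}).ord.ToType κ.ord.ToType) :
    p ∈ LeastInaccessible (LC (ℵ₁ : Cardinal.{0}).ord.ToType κ.ord.ToType) l ∧
    p ∈ ChooseHasStrategyLe (LC (ℵ₁ : Cardinal.{0}).ord.ToType κ.ord.ToType) l.ord.ToType ∧
    p ∈ ChooseHasStrategy (LC (ℵ₁ : Cardinal.{0}).ord.ToType κ.ord.ToType) l.ord.ToType := by
  obtain ⟨-, h2⟩ := regular_of_measurable hκ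
  obtain ⟨U, hN⟩ := exists_normal hκ
  have h0 : ℵ₀ < κ := hκ.1
  have h1 : ℵ₁ < κ := by
    refine lt_of_le_of_lt ?_ (h2 _ h0)
    rw [← succ_aleph0]
    exact Order.succ_le_of_lt (cantor _)
  have hW : #(ℵ₁ : Cardinal.{0}).ord.ToType < κ := by
    rw [mk_ord_toType]
    exact h1
  have hi : #κ.ord.ToType ≤ #l.ord.ToType := by
    rw [mk_ord_toType, mk_ord_toType]
    exact hκl.le
  obtain ⟨i⟩ := hi
  have hs := hasStrategy hN h0 hW i i.injective p
  refine ⟨⟨inaccessible_of_small hl (mk_LC_lt h1 hκl hl) p, fun ν hν => ?_⟩,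
    hasStrategyLe hs, hs⟩
  by_cases hν1 : ℵ₁ < ν ∧ ν ≤ κ
  · exact not_inaccessible_le hν1.1 hν1.2 h0 p
  · refine not_inaccessible_of (fun hcon => ?_) p
    rw [not_and_or, not_lt, not_le] at hν1
    rcases hν1 with h3 | h3
    · have h4 := hcon.isStrongPrelimit hcon.aleph0_lt
      have h5 : (ℵ₁ : Cardinal.{0}) ≤ 2 ^ ℵ₀ := by
        rw [← succ_aleph0]
        exact Order.succ_le_of_lt (cantor _)
      exact absurd h4 (not_lt.2 (h3.trans h5))
    · exact hleast ν h3 hν hcon

end Pool.Agent.Results.MP_21de40_lc.ConsistentYes
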